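import Pool.Agent.Fiv.Cnt
import Pool.Agent.Fiv.Top
import Pool.Agent.Fiv.Srt

/-!
# Five-sided faces in convex drawings of `K_n`
-/

set_option autoImplicit false

namespace Pool.Agent.Results.MP_ee8079_co.FiveFaceCount

open Fiv

/-- counterclockwise labelling -/
theorem main_ccw (n : ℕ) (hn : 3 ≤ n) (v : Fin n → ℝ × ℝ) (hv : Ccw v) :
    (multi v).Finite ∧ (fiveFaces v).Finite ∧
      ((n : ℤ) - 3) * ((n : ℤ) - 4) ≤ 2 * ((fiveFaces v).ncard : ℤ) + ∑ᶠ p ∈ multi v, (12 - 2 * (thr v p : ℤ)) := by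
  classical
  obtain ⟨h1, h2⟩ := five_card hn hv
  have h3 := final_count hn hv
  refine ⟨?_, h1, ?_⟩
  · rw [multi_eq hn hv]
    exact Finset.finite_toSet _
  · rw [h2, multi_eq hn hv, finsum_mem_coe_finset]
    refine h3.trans (le_of_eq ?_)
    congr 1
    refine Finset.sum_congr ?_ fun p hp => ?_
    · ext p
      simp only [Finset.mem_filter]
    · rw [thr_mu hn hv p ((mem_Om hn hv).1 (Finset.mem_filter.1 hp).1).1]

theorem result (n : ℕ) (hn : 3 ≤ n) (v : Fin n → ℝ × ℝ) (hv : ConvexIndependent ℝ v) :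
    (multi v).Finite ∧ (fiveFaces v).Finite ∧
      ((n : ℤ) - 3) * ((n : ℤ) - 4) ≤ 2 * ((fiveFaces v).ncard : ℤ) + ∑ᶠ p ∈ multi v, (12 - 2 * (thr v p : ℤ)) := by
  obtain ⟨σ, hσ⟩ := srt hn hv
  have h := main_ccw n hn (v ∘ σ) hσ
  have h1 : multi (v ∘ σ) = multi v := by
    ext p
    simp only [multi, Set.mem_setOf_eq, thr_perm σ p]
  have h2 : fiveFaces (v ∘ σ) = fiveFaces v := by
    ext F
    simp only [fiveFaces, IsFace, Set.mem_setOf_eq, Un_perm σ]
  have h3 : ∀ p, thr (v ∘ σ) p = thr v p := thr_perm σ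
  simp only [h1, h2, h3] at h
  exact h

end Pool.Agent.Results.MP_ee8079_co.FiveFaceCount
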